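import Pool.Agent.MP_542436_nt.Sp.Spec

set_option autoImplicit false

namespace Pool.Agent.MP_542436_nt.H54

open Polynomial NumberField Finset Pool.Agent.MP_542436_nt.Sp

theorem s19_primes (k n : ℕ) (hn : n ≠ 0) :
    ∃ S : Finset ℕ, S.card = k ∧ ∀ q ∈ S, q.Prime ∧ n < q ∧ q ≤ 2 ^ k * n := by
  induction k with
  | zero => exact ⟨∅, rfl, by simp⟩
  | succ k ih =>
    obtain ⟨S, h1, h2⟩ := ih
    obtain ⟨p, hp, a, b⟩ := Nat.exists_prime_lt_and_le_two_mul (2 ^ k * n) (by positivity)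
    have h3 : n ≤ 2 ^ k * n := Nat.le_mul_of_pos_left n (by positivity)
    refine ⟨insert p S, by rw [card_insert_of_notMem fun h => (h2 p h).2.2.not_gt a, h1], ?_⟩
    intro q hq
    rw [pow_succ]
    rcases mem_insert.1 hq with rfl | hq
    · exact ⟨hp, by omega, by linarith⟩
    · obtain ⟨c, d, e⟩ := h2 q hq
      exact ⟨c, d, by linarith⟩

theorem s19_two {β : Type} [DecidableEq β] (E : Finset (ℤ × ℤ)) (φ : ℤ × ℤ → β)
    (hE : ∀ e ∈ E, Int.gcd e.1 e.2 = 1 ∧ e.2 ≠ 0)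
    (hφ : ∀ e ∈ E, ∀ e' ∈ E, φ e = φ e' → (e.1 : ℚ) / e.2 = (e'.1 : ℚ) / e'.2) :
    E.card ≤ 2 * (E.image φ).card := by
  refine card_le_mul_card_image _ 2 fun z hz => ?_
  obtain ⟨e0, he0, rfl⟩ := mem_image.1 hz
  set t : ℚ := (e0.1 : ℚ) / e0.2 with ht
  refine (card_le_card (t := {(t.num, (t.den : ℤ)), (-t.num, -(t.den : ℤ))}) ?_).trans card_le_two
  rintro ⟨a, b⟩ he
  obtain ⟨he, h⟩ := mem_filter.1 he
  have h1 : (a : ℚ) / b = t := hφ _ he _ he0 h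
  obtain ⟨h2, h3⟩ := hE _ he
  simp only [mem_insert, mem_singleton, Prod.mk.injEq]
  rcases lt_or_gt_of_ne h3 with h4 | h4
  · right
    have h5 : ((-a : ℤ) : ℚ) / ((-b : ℤ) : ℚ) = t := by rw [← h1]; push_cast; ring_nf
    have h6 : Nat.Coprime (-a).natAbs (-b).natAbs := by
      rw [Int.natAbs_neg, Int.natAbs_neg]
      exact h2
    have h7 := Rat.num_div_eq_of_coprime (neg_pos.2 h4) h6
    have h8 := Rat.den_div_eq_of_coprime (neg_pos.2 h4) h6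
    rw [h5] at h7 h8
    constructor <;> linarith
  · left
    have h7 := Rat.num_div_eq_of_coprime h4 h2
    have h8 := Rat.den_div_eq_of_coprime h4 h2
    rw [h1] at h7 h8
    exact ⟨h7.symm, h8.symm⟩

theorem s19_val {m n : ℕ} {f : ℤ[X][X]} {W X : ℝ} {x y a b : ℤ} (hX : 0 ≤ X) (hW : 0 ≤ W)
    (hf : ∀ i k, i ≤ m → |((cf f i k : ℤ) : ℝ)| ≤ W) (hx : |(x : ℝ)| ≤ X) (hy : |(y : ℝ)| ≤ X)
    (ha : |(a : ℝ)| ≤ X) (hb : |(b : ℝ)| ≤ X) :
    |((hval m n f x y a b : ℤ) : ℝ)| ≤ (m + 1) * ((n + 1) * (W * X ^ m * X ^ n)) := by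
  have key : ∀ (x y : ℤ) (i m : ℕ), |(x : ℝ)| ≤ X → |(y : ℝ)| ≤ X → i ∈ range (m + 1) →
      |(x : ℝ) ^ i * (y : ℝ) ^ (m - i)| ≤ X ^ m := by
    intro x y i m hx hy hi
    obtain ⟨l, rfl⟩ := Nat.exists_eq_add_of_le (Nat.lt_succ_iff.1 (mem_range.1 hi))
    rw [Nat.add_sub_cancel_left, abs_mul, abs_pow, abs_pow, pow_add]
    gcongr
  rw [hval]
  push_cast
  refine (abs_sum_le_sum_abs _ _).trans ((sum_le_card_nsmul _ _ ((n + 1) * (W * X ^ m * X ^ n))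
    fun i hi => (abs_sum_le_sum_abs _ _).trans ((sum_le_card_nsmul _ _ (W * X ^ m * X ^ n)
      fun k hk => ?_).trans (by simp))).trans (by simp))
  rw [abs_mul, abs_mul]
  have h1 := hf i k (Nat.lt_succ_iff.1 (mem_range.1 hi))
  have h2 := key x y i m hx hy hi
  have h3 := key a b k n ha hb hk
  gcongr

theorem s19_cf (hB : BaseStmt) (g : ℤ[X][X]) (i k : ℕ) :
    cf (ds g) i k = cf g (i + 1) k * (i + 1) := by
  rw [cf, hB.coeff_ds, coeff_derivative, cf]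

theorem s19_dg (hB : BaseStmt) {g : ℤ[X][X]} {m n : ℕ} (hm : 1 ≤ m) (hg : Dg (m + 1) (n + 1) g) :
    Dg (m - 1 + 1) (n + 1) (ds g) := fun i k h => by
  rw [s19_cf hB] at h
  have := hg _ _ (left_ne_zero_of_mul h)
  omega

theorem s19_ndvd (hB : BaseStmt) {g : ℤ[X][X]} (hm : 1 ≤ dS g) : ¬ g ∣ ds g := by
  rintro ⟨h, hh⟩
  have h0 : ds g ≠ 0 := fun h0 => by
    have : dS g ≤ 0 := Finset.sup_le fun k _ => by
      have := hB.coeff_ds ℤ g k
      rw [h0, coeff_zero] at this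
      exact (derivative_eq_zero.1 this.symm).le
    omega
  have h1 := ((hB.dg_iff ℤ _ _ _).1 (s19_dg hB hm ((hB.dg_iff ℤ _ _ g).2 ⟨le_rfl, le_rfl⟩))).1
  rw [hh] at h0 h1
  rw [hB.dS_mul ℤ g h (left_ne_zero_of_mul h0) (right_ne_zero_of_mul h0)] at h1
  omega

theorem s19_zero (hB : BaseStmt) {m n : ℕ} {f : ℤ[X][X]} {x y a b : ℤ} (hf : Dg (m + 1) (n + 1) f)
    (hy : y ≠ 0) (hb : b ≠ 0) (h : hval m n f x y a b = 0) :
    (up ℚ f).evalEval ((x : ℚ) / y) ((a : ℚ) / b) = 0 := by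
  have hy' : (y : ℚ) ≠ 0 := Int.cast_ne_zero.2 hy
  have hb' : (b : ℚ) ≠ 0 := Int.cast_ne_zero.2 hb
  have := hB.hval_eq ℚ m n f x y a b hf hy' hb'
  rw [h, Int.cast_zero] at this
  exact (mul_eq_zero.1 this.symm).resolve_left (by positivity)

theorem Fam.mono {K : Type} [Field K] {θ ω : K} {X A B p0 : ℝ} {g : ℤ[X][X]} {m2 n2 q N N' : ℕ}
    {Q : ℕ → Pt K} (h : Fam θ ω X A B p0 g m2 n2 q N Q) (hN : N' ≤ N) :
    Fam θ ω X A B p0 g m2 n2 q N' Q :=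
  ⟨fun i hi => h.inc i (by omega), fun i hi => h.on i (by omega), fun i hi => h.unit i (by omega),
    fun i hi => h.cs i (by omega), fun i hi => h.ct i (by omega),
    fun i j hij hj => h.ne i j hij (by omega)⟩

theorem s19_unif (hC : ClsStmt) (K : Type) [Field K] [NumberField K] (d : ℕ) (θ : K)
    (hθ : St d θ) (M M2 : ℕ) (η c0 : ℝ) (hη : 0 < η) (hc0 : 0 < c0) :
    ∃ (N : ℕ) (X0 : ℝ), ∀ X : ℝ, X0 ≤ X → ∀ P x1 x2 t l pen : ℝ, 0 ≤ P → 0 ≤ x2 → x2 ≤ x1 →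
      ∀ ω ζ0 ζ1 : K, Gen ω → Rep ω (X ^ x1) (X ^ x2) (X ^ t) ζ0 ζ1 →
      ∀ (g : ℤ[X][X]) (m2 n2 r2 : ℕ), Crv θ ω g m2 n2 r2 → m2 ≤ M2 → n2 ≤ M2 → 1 ≤ r2 →
        Cov d M m2 n2 r2 η P x1 x2 t l pen → PenOk g m2 n2 r2 c0 X P x1 x2 pen →
        ∀ q : ℕ, q.Prime → X ^ l ≤ q → (q : ℝ) < X ^ P →
        ∀ Q : ℕ → Pt K, ¬ Fam θ ω X (X ^ x1) (X ^ x2) (X ^ P) g m2 n2 q N Q := by
  have h := hC K d θ hθ
  choose! N X0 h using h
  obtain ⟨N1, hN⟩ := Finite.exists_le fun u : Fin 6 → Fin (M + 1) =>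
    N (u 0) (u 1) (u 2) (u 3) (u 4) (u 5) M2 η c0
  obtain ⟨X1, hX1⟩ := Finite.exists_le fun u : Fin 6 → Fin (M + 1) =>
    X0 (u 0) (u 1) (u 2) (u 3) (u 4) (u 5) M2 η c0
  refine ⟨N1, X1, ?_⟩
  rintro X hX P x1 x2 t l pen hP h2 h21 ω ζ0 ζ1 hω hR g m2 n2 r2 hg hm hn hr
    ⟨-, -, m, n, r, m', n', r', a1, a2, a3, a4, a5, a6, a7, a8, a9, a10, a11, a12⟩ hpen q hq b1 b2
    Q hF
  let u : Fin 6 → Fin (M + 1) := ![⟨m, by omega⟩, ⟨n, by omega⟩, ⟨r, by omega⟩, ⟨m', by omega⟩,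
    ⟨n', by omega⟩, ⟨r', by omega⟩]
  exact h m n r m' n' r' M2 η c0 a6 a7 a9 hη hc0 X ((hX1 u).trans hX) P x1 x2 t l pen hP h2 h21 a12
    ω ζ0 ζ1 hω hR g m2 n2 r2 hg a8 hm a10 hn hr a11 hpen q hq b1 b2 Q (Fam.mono hF (hN u))

theorem curve (hB : BaseStmt) (hZ : BezStmt) (hL : ClassesStmt) (hC : ClsStmt) : CurveStmt := by
  classical
  intro K _ _ d θ hθ M M2 c η c0 hη hc0
  obtain ⟨N, X0, hN⟩ := s19_unif hC K d θ hθ M M2 η c0 hη hc0
  obtain ⟨c', hc'⟩ : ∃ c', c' = c + 2 * M2 + 5 := ⟨_, rfl⟩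
  obtain ⟨k, hk⟩ : ∃ k, k = 20 * c' + 1 := ⟨_, rfl⟩
  refine ⟨2 * (M2 * (M2 * M2 + M2 * M2)) + k * (M2 * (2 ^ (k + 1) * (2 * N))),
    max (max X0 (M2 + 2)) ((2 ^ (k + 2)) ^ 10), by positivity, ?_⟩
  intro X hX P x1 x2 t l pen hP h2 h21 h1 ω ζ0 ζ1 hω hR g m2 n2 r2 hg hm hn hr hcov hc hpen E hE
  have hX0 : X0 ≤ X := ((le_max_left _ _).trans (le_max_left _ _)).trans hX
  have hXM : (M2 : ℝ) + 2 ≤ X := ((le_max_right _ _).trans (le_max_left _ _)).trans hX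
  have hXk : ((2 : ℝ) ^ (k + 2)) ^ 10 ≤ X := (le_max_right _ _).trans hX
  have hM0 : (0 : ℝ) ≤ M2 := Nat.cast_nonneg _
  have hX1 : 1 < X := by linarith
  have hXp : 0 < X := by linarith
  have hN' := hN X hX0 P x1 x2 t l pen (by linarith) h2 h21 ω ζ0 ζ1 hω hR g m2 n2 r2 hg hm hn hr
    hcov hpen
  obtain ⟨hl1, hl2, _, _, _, m', n', _, -, -, -, -, -, -, a7, a8, a9, a10, -⟩ := hcov
  have hm1 : 1 ≤ m2 := a7.trans a8
  have hY : 1 ≤ X ^ l := Real.one_le_rpow hX1.le (by linarith)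
  have hdg : Dg (m2 + 1) (n2 + 1) g := (hB.dg_iff ℤ _ _ g).2 ⟨hg.hm.le, hg.hn.le⟩
  have hdg' := s19_dg hB hm1 hdg
  have : Nonempty (Pt K) := ⟨⟨0, 0, 0, 0, 0, AbsoluteValue.trivial⟩⟩
  choose! Q hQ hQe using hE
  have hQa : ∀ e ∈ E, (Q e).a = e.1 := fun e he => congrArg Prod.fst (hQe e he)
  have hQb : ∀ e ∈ E, (Q e).b = e.2 := fun e he => congrArg Prod.snd (hQe e he)
  have hE : ∀ e ∈ E, Int.gcd e.1 e.2 = 1 ∧ e.2 ≠ 0 := fun e he => by
    rw [← hQa e he, ← hQb e he]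
    exact ⟨(hQ e he).1.sq.cop, (hQ e he).1.b0⟩
  obtain ⟨S, hS1, hS2⟩ := s19_primes k ⌈X ^ l⌉₊ (Nat.ceil_pos.2 (by linarith)).ne'
  have hS3 : ∀ q ∈ S, X ^ l ≤ q ∧ (q : ℝ) ≤ 2 ^ (k + 1) * X ^ l := fun q hq => by
    obtain ⟨-, b1, b2⟩ := hS2 q hq
    have b3 := Nat.ceil_lt_add_one (show 0 ≤ X ^ l by linarith)
    refine ⟨(Nat.le_ceil _).trans (by exact_mod_cast b1.le), ?_⟩
    calc (q : ℝ) ≤ 2 ^ k * ⌈X ^ l⌉₊ := by exact_mod_cast b2
      _ ≤ 2 ^ k * (2 * X ^ l) := by gcongr; linarith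
      _ = _ := by ring
  have hS4 : ∀ q ∈ S, (q : ℝ) < X ^ P := fun q hq => by
    have b1 : (2 : ℝ) ^ (k + 2) ≤ X ^ ((1 : ℝ) / 10) := by
      have := Real.rpow_le_rpow (by positivity) hXk (show (0 : ℝ) ≤ 1 / 10 by norm_num)
      rwa [one_div, show (10 : ℝ) = ((10 : ℕ) : ℝ) by norm_num,
        Real.pow_rpow_inv_natCast (by positivity) (by norm_num), Nat.cast_ofNat, ← one_div] at this
    calc (q : ℝ) ≤ 2 ^ (k + 1) * X ^ l := (hS3 q hq).2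
      _ < 2 ^ (k + 2) * X ^ l := by gcongr <;> norm_num
      _ ≤ X ^ ((1 : ℝ) / 10) * X ^ l := by gcongr
      _ = X ^ (1 / 10 + l) := (Real.rpow_add hXp _ _).symm
      _ ≤ X ^ P := Real.rpow_le_rpow_of_exponent_le hX1.le (by linarith)
  let D : ℤ × ℤ → ℤ := fun e => (Q e).y * (Q e).b * (Q e).val (m2 - 1) n2 (ds g)
  have hD : ∀ e ∈ E, |(D e : ℝ)| ≤ X ^ c' := by
    intro e he
    have hI := (hQ e he).1
    have b1 : X ^ x1 ≤ X := by simpa using Real.rpow_le_rpow_of_exponent_le hX1.le h1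
    have b2 : X ^ x2 ≤ X := by simpa using Real.rpow_le_rpow_of_exponent_le hX1.le (h21.trans h1)
    have b3 : (m2 : ℝ) ≤ M2 := by exact_mod_cast hm
    have b4 : (n2 : ℝ) ≤ M2 := by exact_mod_cast hn
    have b5 : ((m2 - 1 : ℕ) : ℝ) ≤ M2 := by exact_mod_cast (Nat.sub_le m2 1).trans hm
    have b6 := s19_val (m := m2 - 1) (n := n2) (f := ds g) (W := X ^ c * X) hXp.le (by positivity)
      (fun i j hi => by
        rw [s19_cf hB]
        push_cast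
        have : (i : ℝ) ≤ M2 := by exact_mod_cast (hi.trans (Nat.sub_le m2 1)).trans hm
        rw [abs_mul, abs_of_nonneg (show (0 : ℝ) ≤ i + 1 by positivity)]
        exact mul_le_mul (hc _ _) (by linarith) (by positivity) (by positivity))
      (hI.hx.trans b1) (hI.hy.trans b2) hI.sq.ha hI.sq.hb
    have b7 := hI.hy.trans b2
    have b8 := hI.sq.hb
    simp only [D, Pt.val, Int.cast_mul, abs_mul]
    calc _ ≤ X * X * (X * (X * (X ^ c * X * X ^ M2 * X ^ M2))) := by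
          refine mul_le_mul (by gcongr) (b6.trans ?_) (abs_nonneg _) (by positivity)
          gcongr
          · linarith
          · linarith
          · exact hX1.le
          · omega
          · exact hX1.le
      _ = _ := by rw [hc']; ring
  have hcov : E ⊆ E.filter (fun e => (Q e).val (m2 - 1) n2 (ds g) = 0) ∪
      S.biUnion fun q => E.filter fun e => ¬ (q : ℤ) ∣ D e := by
    intro e he
    by_contra hc
    simp only [mem_union, mem_filter, he, true_and, mem_biUnion, not_or, not_exists, not_and,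
      not_not] at hc
    have b0 : D e ≠ 0 := mul_ne_zero (mul_ne_zero (hQ e he).1.y0 (hQ e he).1.b0) hc.1
    have b1 := Nat.le_of_dvd (Int.natAbs_pos.2 b0) (Finset.prod_primes_dvd (D e).natAbs
      (fun q hq => (hS2 q hq).1.prime) fun q hq => Int.natCast_dvd.1 (hc.2 q hq))
    have b2 : (X ^ l) ^ k ≤ ((∏ q ∈ S, q : ℕ) : ℝ) := by
      rw [← hS1, ← prod_const, Nat.cast_prod]
      exact prod_le_prod (fun _ _ => by positivity) fun q hq => (hS3 q hq).1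
    have b3 : ((∏ q ∈ S, q : ℕ) : ℝ) ≤ X ^ c' := by
      refine le_trans ?_ (hD e he)
      rw [← Int.cast_abs, Int.abs_eq_natAbs, Int.cast_natCast]
      exact_mod_cast b1
    have b4 := b2.trans b3
    rw [← Real.rpow_natCast, ← Real.rpow_natCast, ← Real.rpow_mul hXp.le,
      Real.rpow_le_rpow_left_iff hX1, hk] at b4
    push_cast at b4
    have : (0 : ℝ) ≤ c' := Nat.cast_nonneg _
    nlinarith
  have hE0 : (E.filter fun e => (Q e).val (m2 - 1) n2 (ds g) = 0).card ≤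
      2 * (M2 * (M2 * M2 + M2 * M2)) := by
    refine (s19_two _ (fun e => (((Q e).x : ℚ) / (Q e).y, (e.1 : ℚ) / e.2))
      (fun e he => hE e (mem_filter.1 he).1) fun e _ e' _ h => congrArg Prod.snd h).trans ?_
    refine Nat.mul_le_mul_left 2 ((hZ m2 n2 (m2 - 1) n2 g (ds g) hg.irr (by rw [hg.hn]; omega) hdg
      hdg' (s19_ndvd hB (hg.hm ▸ hm1)) _ fun z hz => ?_).trans ?_)
    · obtain ⟨e, he, rfl⟩ := mem_image.1 hz
      obtain ⟨he, h0⟩ := mem_filter.1 he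
      simp only [← hQa e he, ← hQb e he]
      exact ⟨s19_zero hB hdg (hQ e he).1.y0 (hQ e he).1.b0 (hQ e he).2,
        s19_zero hB hdg' (hQ e he).1.y0 (hQ e he).1.b0 h0⟩
    · have : m2 - 1 ≤ M2 := by omega
      gcongr
  have hEq : ∀ q ∈ S, (((E.filter fun e => ¬ (q : ℤ) ∣ D e).card : ℕ) : ℝ) ≤
      M2 * (2 ^ (k + 1) * (2 * N)) * X ^ l := by
    intro q hq
    obtain ⟨E', b1, b2, b3⟩ := hL q (hS2 q hq).1 m2 n2 g (ℤ × ℤ) (fun e => (Q e).x)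
      (fun e => (Q e).y) (fun e => (Q e).a) (fun e => (Q e).b) (E.filter fun e => ¬ (q : ℤ) ∣ D e)
      hm1 hdg fun e he => ⟨(mem_filter.1 he).2, (hQ e (mem_filter.1 he).1).2⟩
    have b4 : ∀ e ∈ E', e ∈ E := fun e he => (mem_filter.1 (b1 he)).1
    have b5 := s19_two E' (fun e => (e.1 : ℚ) / e.2) (fun e he => hE e (b4 e he)) fun _ _ _ _ h => h
    have b6 : (E'.image fun e => (e.1 : ℚ) / e.2).card ≤ N := by
      by_contra hc
      obtain ⟨φ, hφ⟩ := Function.Embedding.exists_of_card_le_finset (α := Fin (N + 1))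
        (s := E'.image fun e => (e.1 : ℚ) / e.2) (by rw [Fintype.card_fin]; omega)
      choose ε hε1 hε2 using fun i => mem_image.1 (mem_coe.1 (hφ ⟨i, rfl⟩))
      refine hN' q (hS2 q hq).1 (hS3 q hq).1 (hS4 q hq) (fun i => Q (ε (Fin.ofNat _ i)))
        ⟨fun i _ => (hQ _ (b4 _ (hε1 _))).1, fun i _ => (hQ _ (b4 _ (hε1 _))).2,
          fun i _ => (mem_filter.1 (b1 (hε1 _))).2, fun i _ => (b3 _ (hε1 _) _ (hε1 _)).1,
          fun i _ => (b3 _ (hε1 _) _ (hε1 _)).2, fun i j hij hj h => ?_⟩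
      have b7 : φ (Fin.ofNat _ i) = φ (Fin.ofNat _ j) := by
        rw [← hε2, ← hε2, div_eq_div_iff (Int.cast_ne_zero.2 (hE _ (b4 _ (hε1 _))).2)
          (Int.cast_ne_zero.2 (hE _ (b4 _ (hε1 _))).2)]
        simp only [hQa _ (b4 _ (hε1 _)), hQb _ (b4 _ (hε1 _))] at h
        exact_mod_cast h
      have b8 := congrArg Fin.val (φ.injective b7)
      simp only [Fin.val_ofNat] at b8
      rw [Nat.mod_eq_of_lt (by omega), Nat.mod_eq_of_lt (by omega)] at b8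
      omega
    have b7 := (hS3 q hq).2
    calc _ ≤ ((M2 * q * (2 * N) : ℕ) : ℝ) := by
          exact_mod_cast b2.trans (Nat.mul_le_mul (Nat.mul_le_mul_right _ hm) (by omega))
      _ = M2 * q * (2 * N) := by push_cast; ring
      _ ≤ M2 * (2 ^ (k + 1) * X ^ l) * (2 * N) := by gcongr
      _ = _ := by ring
  have b1 := (card_le_card hcov).trans ((card_union_le _ _).trans
    (Nat.add_le_add hE0 card_biUnion_le))
  have b2 := sum_le_card_nsmul _ _ _ hEq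
  rw [hS1, nsmul_eq_mul, ← Nat.cast_sum] at b2
  have b3 := (Nat.cast_le (α := ℝ)).2 b1
  rw [Nat.cast_add] at b3
  refine b3.trans ?_
  rw [add_mul]
  refine add_le_add ?_ (b2.trans_eq (by ring))
  push_cast
  exact le_mul_of_one_le_right (by positivity) hY

end Pool.Agent.MP_542436_nt.H54
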