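import Pool.Agent.MP_542436_nt.Sp.Spec

set_option autoImplicit false

namespace Pool.Agent.MP_542436_nt.H54

open Polynomial NumberField Finset Pool.Agent.MP_542436_nt.Sp

section Val

variable {K : Type} [Field K] {p : ℕ} {v : AbsoluteValue K ℝ}

theorem s4_sum (hv : Plc p v) {ι : Type} (s : Finset ι) (f : ι → K) {c : ℝ} (hc : 0 ≤ c)
    (h : ∀ i ∈ s, v (f i) ≤ c) : v (∑ i ∈ s, f i) ≤ c := by
  classical
  induction s using Finset.induction_on with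
  | empty => simpa using hc
  | insert i s hi ih =>
    rw [sum_insert hi]
    exact (hv.na _ _).trans (max_le (h i (by simp)) (ih fun j hj => h j (by simp [hj])))

theorem s4_int (hP : PlcStmt) (hv : Plc p v) (n : ℤ) : v (n : K) ≤ 1 :=
  hP.int_le K p v _ hv (by simpa using isIntegral_algebraMap (R := ℤ) (A := K) (x := n))

theorem s4_nat (hP : PlcStmt) (hv : Plc p v) (n : ℕ) : v (n : K) ≤ 1 := by
  simpa using s4_int hP hv n

theorem s4_lt (hv : Plc p v) : 1 / (p : ℝ) < 1 := by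
  have : (1 : ℝ) < p := by exact_mod_cast hv.prime.one_lt
  rw [div_lt_one (by linarith)]
  exact this

theorem s4_mul {a b : K} (ha : v a ≤ 1) (hb : v b ≤ 1) : v (a * b) ≤ 1 := by
  rw [map_mul]
  exact mul_le_one₀ ha (v.nonneg _) hb

theorem s4_pow {a : K} (ha : v a ≤ 1) (n : ℕ) : v (a ^ n) ≤ 1 := by
  rw [map_pow]
  exact pow_le_one₀ (v.nonneg _) ha

theorem s4_tc (hB : BaseStmt) (hP : PlcStmt) (hv : Plc p v) {ω θ : K} (hω : v ω ≤ 1)
    (hθ : v θ ≤ 1) (M N : ℕ) (f : ℤ[X][X]) (i j : ℕ) : v (tc M N ω θ (up K f) i j) ≤ 1 := by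
  refine s4_sum hv _ _ zero_le_one fun a _ => s4_sum hv _ _ zero_le_one fun c _ => ?_
  rw [hB.cf_up]
  exact s4_mul (s4_mul (s4_int hP hv _) (s4_mul (s4_nat hP hv _) (s4_pow hω _)))
    (s4_mul (s4_nat hP hv _) (s4_pow hθ _))

/-- the second coordinate of a primitive pair is a unit -/
theorem s4_unit (hP : PlcStmt) (hv : Plc p v) {ω : K} (hω : v ω ≤ 1) {x y : ℤ}
    (hc : Int.gcd x y = 1) (h : v ((x : K) - ω * y) < 1) : v (y : K) = 1 := by
  refine hP.unit_of K p v y hv fun hy => ?_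
  have h1 : v (y : K) < 1 := by
    obtain ⟨k, rfl⟩ := hy
    rw [Int.cast_mul, Int.cast_natCast, map_mul, hv.vp]
    exact (mul_le_of_le_one_right (by positivity) (s4_int hP hv k)).trans_lt (s4_lt hv)
  have h2 : v (x : K) < 1 := by
    have := hv.na ((x : K) - ω * y) (ω * y)
    rw [sub_add_cancel] at this
    refine this.trans_lt (max_lt h ?_)
    rw [map_mul]
    exact (mul_le_of_le_one_left (v.nonneg _) hω).trans_lt h1
  have h3 : (p : ℤ) ∣ x := by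
    by_contra hx
    exact h2.ne (hP.unit_of K p v x hv hx)
  have h4 := Int.dvd_gcd h3 hy
  rw [hc, Nat.dvd_one] at h4
  exact hv.prime.one_lt.ne' h4

end Val

/-- one term of the expansion of the value -/
noncomputable def s4t {K : Type} [Field K] (θ ω : K) (Q : Pt K) (m n : ℕ) (f : ℤ[X][X])
    (z : ℕ × ℕ) : K :=
  tc (m + 1) (n + 1) ω θ (up K f) z.1 z.2 * (((Q.x : K) - ω * Q.y) ^ z.1 * (Q.y : K) ^ (m - z.1)) *
    (((Q.a : K) - θ * Q.b) ^ z.2 * (Q.b : K) ^ (n - z.2))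

section Exp

variable {K : Type} [Field K] [NumberField K] {θ ω : K} {X A B p0 : ℝ} {Q : Pt K} {m n : ℕ}
  {f : ℤ[X][X]}

omit [NumberField K] in
theorem s4_dg (hB : BaseStmt) {M N : ℕ} (hf : Dg M N f) : Dg M N (up K f) := fun i k h =>
  hf i k fun h0 => h (by rw [hB.cf_up, h0, Int.cast_zero])

theorem s4_exp (hB : BaseStmt) (hQ : Inc θ ω X A B p0 Q) (hf : Dg (m + 1) (n + 1) f) :
    ((Q.val m n f : ℤ) : K) = ∑ z ∈ range (m + 1) ×ˢ range (n + 1), s4t θ ω Q m n f z := by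
  have hy : (Q.y : K) ≠ 0 := Int.cast_ne_zero.2 hQ.y0
  have hb : (Q.b : K) ≠ 0 := Int.cast_ne_zero.2 hQ.b0
  have key : ∀ (x y w : K) (i k : ℕ), y ≠ 0 → i ≤ k →
      (x - w * y) ^ i * y ^ (k - i) = y ^ k * (x / y - w) ^ i := by
    intro x y w i k hy hi
    obtain ⟨l, rfl⟩ := Nat.exists_eq_add_of_le hi
    rw [Nat.add_sub_cancel_left, pow_add, show x - w * y = y * (x / y - w) by field_simp, mul_pow]
    ring
  rw [Pt.val, hB.hval_eq K m n f _ _ _ _ hf hy hb, hB.expand K _ _ ω θ _ _ _ (s4_dg hB hf),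
    sum_product, mul_sum]
  refine sum_congr rfl fun i hi => ?_
  rw [mul_sum]
  refine sum_congr rfl fun j hj => ?_
  rw [s4t, key _ _ _ _ _ hy (Nat.lt_succ_iff.1 (mem_range.1 hi)),
    key _ _ _ _ _ hb (Nat.lt_succ_iff.1 (mem_range.1 hj))]
  ring

omit [NumberField K] in
theorem s4_term (hB : BaseStmt) (hP : PlcStmt) (hθ : IsIntegral ℤ θ) (hQ : Inc θ ω X A B p0 Q)
    {r : ℕ} {z : ℕ × ℕ}
    (hz : tc (m + 1) (n + 1) ω θ (up K f) z.1 z.2 = 0 ∨ r ≤ z.1 + 2 * z.2) :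
    Q.v (s4t θ ω Q m n f z) ≤ 1 / (Q.p : ℝ) ^ r := by
  have hv := hQ.sq.plc
  rcases hz with hz | hz
  · rw [s4t, hz, zero_mul, zero_mul, map_zero]
    positivity
  · have h1 := s4_tc hB hP hv hQ.vω (hP.int_le K _ _ _ hv hθ) (m + 1) (n + 1) f z.1 z.2
    have h2 := s4_pow (s4_int hP hv Q.y) (m - z.1)
    have h3 := s4_pow (s4_int hP hv Q.b) (n - z.2)
    have h4 := pow_le_pow_left₀ (Q.v.nonneg _) hQ.vs z.1
    have h5 := pow_le_pow_left₀ (Q.v.nonneg _) hQ.sq.vt z.2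
    rw [s4t, map_mul, map_mul, map_mul, map_mul, map_pow Q.v _ z.1, map_pow Q.v _ z.2]
    calc _ ≤ 1 * ((1 / (Q.p : ℝ)) ^ z.1 * 1) * ((1 / (Q.p : ℝ) ^ 2) ^ z.2 * 1) := by
          gcongr
      _ = (1 / (Q.p : ℝ)) ^ (z.1 + 2 * z.2) := by
          rw [← one_div_pow, ← pow_mul, pow_add]
          ring
      _ ≤ (1 / (Q.p : ℝ)) ^ r := pow_le_pow_of_le_one (by positivity) (s4_lt hv).le hz
      _ = _ := one_div_pow _ _

theorem s4_one (hB : BaseStmt) (hP : PlcStmt) (hθ : IsIntegral ℤ θ) (hQ : Inc θ ω X A B p0 Q)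
    (hf : Dg (m + 1) (n + 1) f) (h0 : Q.val m n f = 0) {r : ℕ} {z0 : ℕ × ℕ}
    (hz0 : z0 ∈ range (m + 1) ×ˢ range (n + 1))
    (hz : ∀ z, z ≠ z0 → tc (m + 1) (n + 1) ω θ (up K f) z.1 z.2 = 0 ∨ r ≤ z.1 + 2 * z.2) :
    Q.v (s4t θ ω Q m n f z0) ≤ 1 / (Q.p : ℝ) ^ r := by
  have h := s4_exp hB hQ hf
  rw [h0, Int.cast_zero, ← add_sum_erase _ _ hz0, eq_comm, add_eq_zero_iff_eq_neg] at h
  rw [h, map_neg_eq_map]
  exact s4_sum hQ.sq.plc _ _ (by positivity) fun z hz' =>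
    s4_term hB hP hθ hQ (hz z (ne_of_mem_erase hz'))

end Exp

theorem pdiv (hB : BaseStmt) (hP : PlcStmt) : PDivStmt := by
  intro K _ _ d θ ω hθ X A B p0 Q hQ m n r f hf ho
  refine hP.dvd_of K _ _ _ r hQ.sq.plc ?_
  rw [s4_exp hB hQ hf]
  refine s4_sum hQ.sq.plc _ _ (by positivity) fun z _ => s4_term hB hP hθ.int hQ ?_
  by_cases h : z.1 + 2 * z.2 < r
  · exact Or.inl ((hB.ord_iff K _ _ ω θ r _ (s4_dg hB hf)).1 ho _ _ h)
  · exact Or.inr (not_lt.1 h)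

section Sm

variable {K : Type} [Field K] [NumberField K] {X : ℝ}

/-- integral with small conjugates -/
def Sm (X : ℝ) (k : ℕ) (α : K) : Prop := IsIntegral ℤ α ∧ house α ≤ X ^ k

theorem Sm.mul (hX : 1 ≤ X) {k l : ℕ} {α β : K} (h : Sm X k α) (h' : Sm X l β) :
    Sm X (k + l) (α * β) :=
  ⟨h.1.mul h'.1, (house_mul_le _ _).trans (by
    rw [pow_add]
    exact mul_le_mul h.2 h'.2 (house_nonneg _) (by positivity))⟩

theorem Sm.mono (hX : 1 ≤ X) {k l : ℕ} {α : K} (h : Sm X k α) (hl : k ≤ l) : Sm X l α :=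
  ⟨h.1, h.2.trans (pow_le_pow_right₀ hX hl)⟩

theorem Sm.pow {k : ℕ} {α : K} (h : Sm X k α) (n : ℕ) : Sm X (k * n) (α ^ n) :=
  ⟨h.1.pow n, (house_pow_le _ _).trans (by
    rw [pow_mul]
    exact pow_le_pow_left₀ (house_nonneg _) h.2 n)⟩

theorem Sm.int {k : ℕ} {n : ℤ} (h : |(n : ℝ)| ≤ X ^ k) : Sm X k (n : K) :=
  ⟨by simpa using isIntegral_algebraMap (R := ℤ) (A := K) (x := n), by simpa using h⟩

theorem Sm.neg {k : ℕ} {α : K} (h : Sm X k α) : Sm X k (-α) :=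
  ⟨h.1.neg, by simpa [house] using h.2⟩

theorem Sm.choose (hX : 2 ≤ X) {a M : ℕ} (ha : a ≤ M) (i : ℕ) : Sm X M ((a.choose i : ℕ) : K) := by
  have h : |(((a.choose i : ℕ) : ℤ) : ℝ)| ≤ X ^ M := by
    rw [Int.cast_natCast, Nat.abs_cast]
    calc ((a.choose i : ℕ) : ℝ) ≤ ((2 ^ M : ℕ) : ℝ) := by
          exact_mod_cast (Nat.choose_le_two_pow a i).trans (Nat.pow_le_pow_right two_pos ha)
      _ ≤ X ^ M := by
          rw [Nat.cast_pow]
          exact pow_le_pow_left₀ (by norm_num) (by exact_mod_cast hX) M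
  simpa using Sm.int (K := K) h

theorem Sm.sum (hX : 1 ≤ X) {k N : ℕ} (hN : (N : ℝ) ≤ X) {f : ℕ → K}
    (h : ∀ i ∈ range N, Sm X k (f i)) : Sm X (k + 1) (∑ i ∈ range N, f i) := by
  refine ⟨IsIntegral.sum _ fun i hi => (h i hi).1, (house_sum_le_sum_house _ _).trans ?_⟩
  refine (sum_le_card_nsmul _ _ _ fun i hi => (h i hi).2).trans ?_
  rw [card_range, nsmul_eq_mul, pow_succ']
  gcongr

theorem Sm.norm (hP : PlcStmt) {k : ℕ} {α : K} (h : Sm X k α) (h0 : α ≠ 0) :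
    ∃ N : ℤ, N ≠ 0 ∧ |(N : ℝ)| ≤ X ^ (k * Module.finrank ℚ K) ∧
      ∀ (p : ℕ) (v : AbsoluteValue K ℝ), Plc p v → v α < 1 → (p : ℤ) ∣ N := by
  obtain ⟨N, h1, h2, h3⟩ := hP.norm K α h.1 h0
  refine ⟨N, h1, h2.trans ?_, fun p v hv => (h3 p v hv).2⟩
  rw [pow_mul]
  exact pow_le_pow_left₀ (house_nonneg _) h.2 _

theorem s4_rep {ω ζ0 ζ1 : K} {A B T : ℝ} {c : ℕ} (hA : 1 ≤ A) (hB : 1 ≤ B) (hT : T ≤ X ^ c)
    (h : Rep ω A B T ζ0 ζ1) : Sm X c ζ0 ∧ Sm X c ζ1 :=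
  ⟨⟨h.i0, (le_mul_of_one_le_right (house_nonneg _) hA).trans (h.h0.trans hT)⟩,
    ⟨h.i1, (le_mul_of_one_le_right (house_nonneg _) hB).trans (h.h1.trans hT)⟩⟩

end Sm

theorem low (hB : BaseStmt) (hP : PlcStmt) : LowStmt := by
  intro K _ _ d θ hθ M c
  refine ⟨(c + (M + c * M) + (M + M) + 1 + 1) * Module.finrank ℚ K,
    max (house θ) (M + 2), ?_⟩
  intro X hX ω ζ0 ζ1 A B T hA hB1 hT hR m n g hm hn hg hc ho
  have hXM : (M : ℝ) + 2 ≤ X := (le_max_right _ _).trans hX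
  have hM0 : (0 : ℝ) ≤ M := Nat.cast_nonneg M
  have hX2 : 2 ≤ X := by linarith
  have hX1 : 1 ≤ X := by linarith
  have hθs : Sm X 1 θ := ⟨hθ.int, by simpa using (le_max_left _ _).trans hX⟩
  obtain ⟨h0, h1⟩ := s4_rep hA hB1 hT hR
  have hsm : ∀ i j, Sm X (c + (M + c * M) + (M + M) + 1 + 1)
      (ζ0 ^ m * tc (m + 1) (n + 1) ω θ (up K g) i j) := by
    intro i j
    rw [tc, mul_sum]
    refine Sm.sum hX1 (by push_cast; linarith [(Nat.cast_le (α := ℝ)).2 hm]) fun a ha => ?_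
    rw [mul_sum]
    refine Sm.sum hX1 (by push_cast; linarith [(Nat.cast_le (α := ℝ)).2 hn]) fun k hk => ?_
    have ha' := Nat.lt_succ_iff.1 (mem_range.1 ha)
    have hk' := Nat.lt_succ_iff.1 (mem_range.1 hk)
    have e : ζ0 ^ m * ω ^ (a - i) = ζ0 ^ (m - (a - i)) * (-ζ1) ^ (a - i) := by
      obtain ⟨l, hl⟩ := Nat.exists_eq_add_of_le (show a - i ≤ m by omega)
      have := hR.ne
      rw [hl, Nat.add_sub_cancel_left, pow_add, hR.eq, div_pow]
      field_simp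
    have e2 : Sm X (c * M) (ζ0 ^ m * ω ^ (a - i)) := by
      rw [e]
      refine ((h0.pow _).mul hX1 (h1.neg.pow _)).mono hX1 ?_
      rw [← mul_add]
      exact Nat.mul_le_mul_left _ (by omega)
    have e3 := ((Sm.int (K := K) (hc a k)).mul hX1 ((Sm.choose hX2 (ha'.trans hm) i).mul hX1
      e2)).mul hX1 ((Sm.choose hX2 (hk'.trans hn) j).mul hX1
        ((hθs.pow (k - j)).mono hX1 (show 1 * (k - j) ≤ M by omega)))
    rw [hB.cf_up]
    convert e3 using 1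
    ring
  have key : ∃ i, tc (m + 1) (n + 1) ω θ (up K g) i 0 ≠ 0 ∧ ∀ (p0 : ℝ) (Q : Pt K),
      Inc θ ω X A B p0 Q → Q.val m n g = 0 → Q.v (tc (m + 1) (n + 1) ω θ (up K g) i 0) < 1 := by
    have hu : ∀ (p0 : ℝ) (Q : Pt K), Inc θ ω X A B p0 Q → Q.v Q.y = 1 ∧ Q.v Q.b = 1 := by
      intro p0 Q hQ
      have hv := hQ.sq.plc
      refine ⟨s4_unit hP hv hQ.vω hQ.cop (hQ.vs.trans_lt (s4_lt hv)),
        s4_unit hP hv (hP.int_le K _ _ _ hv hθ.int) hQ.sq.cop (hQ.sq.vt.trans_lt ?_)⟩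
      rw [← one_div_pow]
      exact pow_lt_one₀ (by positivity) (s4_lt hv) two_ne_zero
    by_cases h00 : tc (m + 1) (n + 1) ω θ (up K g) 0 0 = 0
    · have h10 : tc (m + 1) (n + 1) ω θ (up K g) 1 0 ≠ 0 := by
        intro h10
        refine ho ((hB.ord_iff K _ _ ω θ 2 _ (s4_dg hB hg)).2 fun i j hij => ?_)
        obtain rfl : j = 0 := by omega
        obtain rfl | rfl : i = 0 ∨ i = 1 := by omega
        exacts [h00, h10]
      refine ⟨1, h10, fun p0 Q hQ hQ0 => ?_⟩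
      have hm1 : 1 ≤ m := by
        rcases Nat.eq_zero_or_pos m with rfl | h
        · exact absurd (by simp [tc]) h10
        · exact h
      have := s4_one hB hP hθ.int hQ hg hQ0 (r := 2) (z0 := (1, 0)) (by simp; omega) (by
        rintro ⟨i, j⟩ hz
        by_cases h : 2 ≤ i + 2 * j
        · exact Or.inr h
        · obtain rfl : j = 0 := by omega
          obtain rfl | rfl : i = 0 ∨ i = 1 := by omega
          exacts [Or.inl h00, absurd rfl hz])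
      simp only [s4t, map_mul, map_pow, (hu p0 Q hQ).1, (hu p0 Q hQ).2, one_pow, mul_one, pow_one,
        pow_zero, map_one] at this
      have h2 := this.trans_lt hQ.vs'
      exact (mul_lt_iff_lt_one_left (lt_of_le_of_lt (by positivity) hQ.vs')).1 h2
    · refine ⟨0, h00, fun p0 Q hQ hQ0 => ?_⟩
      have := s4_one hB hP hθ.int hQ hg hQ0 (r := 1) (z0 := (0, 0)) (by simp) (by
        rintro ⟨i, j⟩ hz
        refine Or.inr ?_
        by_contra h
        obtain rfl : j = 0 := by simp only at h; omega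
        obtain rfl : i = 0 := by simp only at h; omega
        exact hz rfl)
      simp only [s4t, map_mul, map_pow, (hu p0 Q hQ).1, (hu p0 Q hQ).2, one_pow, mul_one, pow_one,
        pow_zero, map_one] at this
      exact this.trans_lt (s4_lt hQ.sq.plc)
  obtain ⟨i, hi, hi'⟩ := key
  obtain ⟨N, a1, a2, a3⟩ := (hsm i 0).norm hP (mul_ne_zero (pow_ne_zero _ hR.ne) hi)
  refine ⟨N, a1, a2, fun p0 Q hQ hQ0 => a3 _ _ hQ.sq.plc ?_⟩
  rw [map_mul]
  exact (mul_le_of_le_one_left (Q.v.nonneg _)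
    (s4_pow (hP.int_le K _ _ _ hQ.sq.plc hR.i0) m)).trans_lt (hi' p0 Q hQ hQ0)

theorem triv (hP : PlcStmt) (hF : FewDivStmt) : TrivStmt := by
  classical
  intro K _ _ d θ hθ c
  obtain ⟨C, X0, hC⟩ := hF K d θ hθ ((c + 1) * Module.finrank ℚ K)
  refine ⟨9 * max C 0, max X0 2, ?_⟩
  intro X hX ω ζ0 ζ1 A B T p0 hA hB hT hR hω hp0 E hE
  have hX2 : 2 ≤ X := (le_max_right _ _).trans hX
  have : Nonempty (Pt K) := ⟨⟨0, 0, 0, 0, 0, AbsoluteValue.trivial⟩⟩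
  choose! Q hQ hQe using hE
  have hbox : ∀ (A : ℝ), 1 ≤ A → ((Icc (-⌊A⌋) ⌊A⌋).card : ℝ) ≤ 3 * A := by
    intro A hA
    have h0 : 0 ≤ ⌊A⌋ := Int.floor_nonneg.2 (by linarith)
    have h1 : (((Icc (-⌊A⌋) ⌊A⌋).card : ℤ) : ℝ) = ((⌊A⌋ + 1 - -⌊A⌋ : ℤ) : ℝ) := by
      rw [Int.card_Icc, Int.toNat_of_nonneg (by omega)]
    have h2 := Int.floor_le A
    push_cast at h1
    linarith
  have hmem : ∀ (A : ℝ) (x : ℤ), |(x : ℝ)| ≤ A → x ∈ Icc (-⌊A⌋) ⌊A⌋ := by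
    intro A x hx
    rw [mem_Icc, ← abs_le, Int.le_floor]
    exact_mod_cast hx
  have hmap : Set.MapsTo (fun e => ((Q e).x, (Q e).y)) E
      (Icc (-⌊A⌋) ⌊A⌋ ×ˢ Icc (-⌊B⌋) ⌊B⌋ : Finset (ℤ × ℤ)) := fun e he =>
    mem_coe.2 (mem_product.2 ⟨hmem _ _ (hQ e he).hx, hmem _ _ (hQ e he).hy⟩)
  rw [card_eq_sum_card_fiberwise hmap, Nat.cast_sum]
  refine (sum_le_card_nsmul _ _ (max C 0) fun z _ => ?_).trans ?_
  · rcases (E.filter fun e => ((Q e).x, (Q e).y) = z).eq_empty_or_nonempty with h | ⟨e0, he0⟩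
    · rw [h]
      simp
    · obtain ⟨he1, rfl⟩ := mem_filter.1 he0
      have hQ0 := hQ e0 he1
      have hy : ((Q e0).y : K) ≠ 0 := Int.cast_ne_zero.2 hQ0.y0
      have e1 : ((Q e0).x : K) * ζ0 + (Q e0).y * ζ1 = ζ0 * ((Q e0).x - ω * (Q e0).y) := by
        have := hR.ne
        rw [hR.eq]
        field_simp
        ring
      have hne : ζ0 * (((Q e0).x : K) - ω * (Q e0).y) ≠ 0 := by
        refine mul_ne_zero hR.ne (sub_ne_zero.2 fun h => hω ((Q e0).x / (Q e0).y) ?_)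
        push_cast
        rw [h, mul_div_cancel_right₀ _ hy]
      have hint : ∀ n : ℤ, IsIntegral ℤ (n : K) := fun n => by
        simpa using isIntegral_algebraMap (R := ℤ) (A := K) (x := n)
      have hsm : Sm X (c + 1) (ζ0 * (((Q e0).x : K) - ω * (Q e0).y)) := by
        rw [← e1]
        refine ⟨((hint _).mul hR.i0).add ((hint _).mul hR.i1), (house_add_le _ _).trans ?_⟩
        have a1 := house_mul_le ((Q e0).x : K) ζ0
        have a2 := house_mul_le ((Q e0).y : K) ζ1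
        rw [house_intCast, Int.cast_abs] at a1 a2
        have a3 := mul_le_mul_of_nonneg_right hQ0.hx (house_nonneg ζ0)
        have a4 := mul_le_mul_of_nonneg_right hQ0.hy (house_nonneg ζ1)
        have a5 := hR.h0
        have a6 := hR.h1
        have a7 : X ^ c * 2 ≤ X ^ c * X := by gcongr
        rw [pow_succ]
        linarith
      obtain ⟨N, a1, a2, a3⟩ := hsm.norm hP hne
      refine (hC X ((le_max_left _ _).trans hX) N a1 a2 _ fun e he => ?_).trans (le_max_left _ _)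
      obtain ⟨he, h⟩ := mem_filter.1 he
      have hQ1 := hQ e he
      refine ⟨Q e, ⟨hQ1.sq, hp0.trans hQ1.p0, a3 _ _ hQ1.sq.plc ?_⟩, hQe e he⟩
      rw [Prod.mk.injEq] at h
      rw [← h.1, ← h.2, map_mul]
      exact (mul_le_of_le_one_left ((Q e).v.nonneg _)
        (hP.int_le K _ _ _ hQ1.sq.plc hR.i0)).trans_lt (hQ1.vs.trans_lt (s4_lt hQ1.sq.plc))
  · rw [nsmul_eq_mul, card_product, Nat.cast_mul]
    have h1 := hbox A hA
    have h2 := hbox B hB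
    calc _ ≤ (3 * A) * (3 * B) * max C 0 := by gcongr
      _ = _ := by ring

end Pool.Agent.MP_542436_nt.H54
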